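import Pool.Agent.H14.ENR.Stmts4

/-! Board enr (helper29 / helper14, MP_d15c96_al), row ILM. -/

set_option autoImplicit false

namespace Pool.ENR

theorem ilm_thm : ILMStmt := by
  intro F _ φ i z k h2 hi hφi
  induction k generalizing z with
  | zero =>
    intro _ hz
    left
    simpa using hz
  | succ k ih =>
    intro hφ hz
    have h1 : φ (z ^ 2) * z ^ 2 = 1 := by
      rw [map_pow, ← mul_pow, hφ, one_pow]
    have h3 : (z ^ 2) ^ (2 ^ k) = 1 := by
      rw [← pow_mul]
      rw [pow_succ'] at hz
      exact hz
    rcases ih (z ^ 2) h1 h3 with h | h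
    · have h4 : (z - 1) * (z + 1) = 0 := by
        have : (z - 1) * (z + 1) = z ^ 2 - 1 := by ring
        rw [this, h, sub_self]
      rcases mul_eq_zero.1 h4 with h5 | h5
      · left; exact sub_eq_zero.1 h5
      · right; exact eq_neg_of_add_eq_zero_left h5
    · exfalso
      have h4 : (z - i) * (z + i) = 0 := by
        have : (z - i) * (z + i) = z ^ 2 - i * i := by ring
        rw [this, h, hi, sub_self]
      have h5 : φ z = z := by
        rcases mul_eq_zero.1 h4 with h6 | h6
        · rw [sub_eq_zero.1 h6, hφi]
        · rw [eq_neg_of_add_eq_zero_left h6, map_neg, hφi]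
      rw [h5, ← pow_two, h] at hφ
      apply h2
      have : (2 : F) = 1 - (-1) := by ring
      rw [this, hφ, sub_self]

end Pool.ENR
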